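import Pool.Agent.U756.CS.Main

/-!
# Poisson random segments in the plane: the critical intensity for all laws of the length

Q2 of MP_04d7a1_pr. For every law of the length `L > 0` the critical intensity `λ_c` satisfies
`c / K ≤ λ_c ≤ C / K`, where `K = sup_{r > 0} r ^ 2 P (L ≥ r)` and `c`, `C` are absolute constants.
So `λ_c = 0` if and only if `K = ∞`, and `E L ^ 2 = ∞` does not imply `λ_c = 0`.
-/

set_option autoImplicit false

namespace Pool.Agent.Results.MP_04d7a1_pr.ContinuumSegments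

open MeasureTheory ProbabilityTheory Set
open scoped ENNReal NNReal

/-! ### Definitions used in the statement -/

/-- The Euclidean plane. -/
abbrev Plane : Type := EuclideanSpace ℝ (Fin 2)

/-- The number of indices `i` for which the point `x i ω` lies in the set `A`. -/
noncomputable def count {Ω : Type} (x : ℕ → Ω → Plane) (A : Set Plane) (ω : Ω) : ℝ≥0∞ :=
  ∑' i, A.indicator (fun _ => (1 : ℝ≥0∞)) (x i ω)

/-- The random points `x 0, x 1, …` enumerate a Poisson point process in the plane with intensity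
`t`: the number of points in a Borel set `A` of finite area is Poisson with mean `t * |A|`, and the
numbers of points in finitely many disjoint such sets are independent. -/
structure IsPoissonProcess {Ω : Type} [MeasurableSpace Ω] (P : Measure Ω) (t : ℝ≥0)
    (x : ℕ → Ω → Plane) : Prop where
  measurable : ∀ i, Measurable (x i)
  law : ∀ A : Set Plane, MeasurableSet A → volume A ≠ ∞ → P.map (count x A) =
    (poissonMeasure (t * (volume A).toNNReal)).map (fun n : ℕ => (n : ℝ≥0∞))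
  indep : ∀ (ι : Type) [Finite ι] (A : ι → Set Plane),
    (∀ i, MeasurableSet (A i)) → (∀ i, volume (A i) ≠ ∞) →
    Pairwise (Function.onFun Disjoint A) → iIndepFun (fun i => count x (A i)) P

/-- The uniform law on `[0, 2π)`. -/
noncomputable def angleLaw : Measure ℝ :=
  (volume (Ico (0 : ℝ) (2 * Real.pi)))⁻¹ • volume.restrict (Ico (0 : ℝ) (2 * Real.pi))

/-- The segment from `x` to `x + ℓ (cos θ, sin θ)`. -/
def seg (x : Plane) (θ ℓ : ℝ) : Set Plane :=
  segment ℝ x (x + ℓ • !₂[Real.cos θ, Real.sin θ])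

/-- The continuum model of intensity `t` for the law `m` of the length: the points `x i` enumerate
a Poisson process of intensity `t`, the pairs `(θ i, L i)` of an angle and a length are independent
with law `angleLaw.prod m` (uniform angle, length with law `m`, independent), and they are
independent of the points. -/
structure IsSegmentModel {Ω : Type} [MeasurableSpace Ω] (P : Measure Ω) (t : ℝ≥0) (m : Measure ℝ)
    (x : ℕ → Ω → Plane) (θ L : ℕ → Ω → ℝ) : Prop where
  points : IsPoissonProcess P t x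
  measurable : ∀ i, Measurable (θ i) ∧ Measurable (L i)
  marks : ∀ i, P.map (fun ω => (θ i ω, L i ω)) = angleLaw.prod m
  indep : iIndepFun (fun i ω => (θ i ω, L i ω)) P
  indep_points : IndepFun (fun ω i => x i ω) (fun ω i => (θ i ω, L i ω)) P

/-- The union of the segments. -/
def occupied {Ω : Type} (x : ℕ → Ω → Plane) (θ L : ℕ → Ω → ℝ) (ω : Ω) : Set Plane :=
  ⋃ i, seg (x i ω) (θ i ω) (L i ω)

/-- The set `S` has an unbounded connected component. -/
def HasUnboundedComponent (S : Set Plane) : Prop :=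
  ∃ z ∈ S, ¬ Bornology.IsBounded (connectedComponentIn S z)

/-- For the intensity `t` and the law `m` of the length, the union of the segments has an unbounded
connected component with positive probability. -/
def Percolates (t : ℝ≥0) (m : Measure ℝ) : Prop :=
  ∃ (Ω : Type) (_ : MeasurableSpace Ω) (P : Measure Ω) (_ : IsProbabilityMeasure P)
    (x : ℕ → Ω → Plane) (θ L : ℕ → Ω → ℝ), IsSegmentModel P t m x θ L ∧
    0 < P {ω | HasUnboundedComponent (occupied x θ L ω)}

/-- The critical intensity `λ_c`, in `[0, ∞]`. -/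
noncomputable def critical (m : Measure ℝ) : ℝ≥0∞ :=
  ⨅ t : {t : ℝ≥0 // 0 < t ∧ Percolates t m}, ((t : ℝ≥0) : ℝ≥0∞)

/-- `K = sup_{r > 0} r ^ 2 P (L ≥ r)`, in `[0, ∞]`. -/
noncomputable def tailSup (m : Measure ℝ) : ℝ≥0∞ :=
  ⨆ r : {r : ℝ // 0 < r}, ENNReal.ofReal ((r : ℝ) ^ 2) * m (Ici (r : ℝ))

/-! ### Proof -/

open Pool.Agent.U756.CS (Mk)

theorem toMk {Ω : Type} [MeasurableSpace Ω] {P : Measure Ω} {t : ℝ≥0} {m : Measure ℝ}
    {x : ℕ → Ω → Plane} {θ L : ℕ → Ω → ℝ} (h : IsSegmentModel P t m x θ L) :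
    Mk P t x (fun i ω => (θ i ω, L i ω)) (Pool.Agent.U756.CS.angleLaw.prod m) :=
  ⟨⟨h.points.measurable, h.points.law, h.points.indep⟩,
    fun i => (h.measurable i).1.prodMk (h.measurable i).2, h.marks, h.indep, h.indep_points⟩

theorem ofMk {Ω : Type} [MeasurableSpace Ω] {P : Measure Ω} {t : ℝ≥0} {m : Measure ℝ}
    {x : ℕ → Ω → Plane} {Y : ℕ → Ω → ℝ × ℝ}
    (h : Mk P t x Y (Pool.Agent.U756.CS.angleLaw.prod m)) :
    IsSegmentModel P t m x (fun i ω => (Y i ω).1) (fun i ω => (Y i ω).2) :=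
  ⟨⟨h.points.measurable, h.points.law, h.points.indep⟩,
    fun i => ⟨measurable_fst.comp (h.meas i), measurable_snd.comp (h.meas i)⟩, h.law, h.indep,
    h.indep_points⟩

theorem tailSup_pos (m : Measure ℝ) [IsProbabilityMeasure m] (hm : m (Iic 0) = 0) :
    ∃ r : ℝ, 0 < r ∧ 0 < m (Ici r) := by
  by_contra hcon
  push Not at hcon
  have h1 : m (Ioi 0) = 0 := by
    have h2 : Ioi (0 : ℝ) = ⋃ n : ℕ, Ici (1 / ((n : ℝ) + 1)) := by
      ext y
      simp only [mem_Ioi, mem_iUnion, mem_Ici]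
      constructor
      · intro hy
        obtain ⟨n, hn⟩ := exists_nat_one_div_lt hy
        exact ⟨n, hn.le⟩
      · rintro ⟨n, hn⟩
        exact lt_of_lt_of_le (by positivity) hn
    rw [h2]
    exact measure_iUnion_null fun n => le_antisymm (hcon _ (by positivity)) zero_le
  have h3 : m univ = 0 := by
    rw [← Iic_union_Ioi (a := (0 : ℝ))]
    exact measure_union_null hm h1
  rw [measure_univ] at h3
  exact one_ne_zero h3

theorem le_tailSup (m : Measure ℝ) {r : ℝ} (hr : 0 < r) :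
    ENNReal.ofReal (r ^ 2) * m (Ici r) ≤ tailSup m :=
  le_iSup (fun r : {r : ℝ // 0 < r} => ENNReal.ofReal ((r : ℝ) ^ 2) * m (Ici (r : ℝ))) ⟨r, hr⟩

theorem tailSup_ne_zero (m : Measure ℝ) [IsProbabilityMeasure m] (hm : m (Iic 0) = 0) :
    tailSup m ≠ 0 := by
  obtain ⟨r, hr, hmr⟩ := tailSup_pos m hm
  have h1 : 0 < ENNReal.ofReal (r ^ 2) * m (Ici r) :=
    ENNReal.mul_pos (ENNReal.ofReal_pos.mpr (by positivity)).ne' hmr.ne'
  exact (lt_of_lt_of_le h1 (le_tailSup m hr)).ne'

/-- the lower bound of the critical intensity -/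
theorem lower : ∃ c : ℝ, 0 < c ∧ ∀ (m : Measure ℝ) [IsProbabilityMeasure m], m (Iic 0) = 0 →
    ENNReal.ofReal c / tailSup m ≤ critical m := by
  obtain ⟨c, hc, hmain⟩ := Pool.Agent.U756.CS.lower_bound
  refine ⟨c, hc, ?_⟩
  intro m _ hm
  by_cases hK : tailSup m = ∞
  · rw [hK, ENNReal.div_top]
    exact zero_le
  refine le_iInf fun t => ?_
  obtain ⟨t, ht0, Ω, mΩ, P, hP, x, θ, L, hmod, hpos⟩ := t
  simp only
  refine ENNReal.div_le_of_le_mul ?_
  by_contra hcon
  rw [not_le] at hcon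
  have hK0 : 0 < (tailSup m).toReal := ENNReal.toReal_pos (tailSup_ne_zero m hm) hK
  have hn : m (Iio 0) = 0 := measure_mono_null Iio_subset_Iic_self hm
  have hr : ∀ r : ℝ, 0 < r → ENNReal.ofReal (r ^ 2) * m (Ici r) ≤
      ENNReal.ofReal (tailSup m).toReal := by
    intro r hr
    rw [ENNReal.ofReal_toReal hK]
    exact le_tailSup m hr
  have ht : (t : ℝ) * (tailSup m).toReal ≤ c := by
    have h1 : ENNReal.ofReal ((t : ℝ) * (tailSup m).toReal) ≤ ENNReal.ofReal c := by
      rw [ENNReal.ofReal_mul t.coe_nonneg, ENNReal.ofReal_toReal hK, ENNReal.ofReal_coe_nnreal]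
      exact hcon.le
    exact (ENNReal.ofReal_le_ofReal_iff hc.le).mp h1
  have h0 := hmain m hn (tailSup m).toReal hK0 hr t ht Ω P x (fun i ω => (θ i ω, L i ω))
    (toMk hmod)
  have h0' : P {ω | HasUnboundedComponent (occupied x θ L ω)} = 0 := h0
  exact hpos.ne' h0'

/-- the upper bound of the critical intensity -/
theorem upper (m : Measure ℝ) [IsProbabilityMeasure m] :
    critical m ≤ ENNReal.ofReal 640000 / tailSup m := by
  have h640 : ENNReal.ofReal 640000 ≠ 0 := by
    rw [Ne, ENNReal.ofReal_eq_zero]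
    norm_num
  rw [ENNReal.le_div_iff_mul_le (Or.inr h640) (Or.inr ENNReal.ofReal_ne_top)]
  unfold tailSup
  rw [ENNReal.mul_iSup]
  refine iSup_le fun r => ?_
  obtain ⟨r, hr⟩ := r
  simp only
  by_cases h0 : m (Ici r) = 0
  · rw [h0, mul_zero, mul_zero]
    exact zero_le
  have hm0 : 0 < (m (Ici r)).toReal := ENNReal.toReal_pos h0 (measure_ne_top _ _)
  set k : ℝ := r ^ 2 * (m (Ici r)).toReal with hk
  have hk0 : 0 < k := by positivity
  have hk' : ENNReal.ofReal (r ^ 2) * m (Ici r) = ENNReal.ofReal k := by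
    rw [hk, ENNReal.ofReal_mul (by positivity), ENNReal.ofReal_toReal (measure_ne_top _ _)]
  set t : ℝ≥0 := ⟨640000 / k, by positivity⟩ with ht
  have ht' : (t : ℝ) = 640000 / k := rfl
  have ht0 : 0 < t := by
    have : (0 : ℝ) < t := by rw [ht']; positivity
    exact_mod_cast this
  have hperc : Percolates t m := by
    obtain ⟨Ω, mΩ, P, hP, x, Y, hY⟩ := Pool.Agent.U756.CS.exists_model m ht0
    refine ⟨Ω, mΩ, P, hP, x, _, _, ofMk hY, ?_⟩
    refine Pool.Agent.U756.CS.upper_bound m r hr t ?_ Ω P x Y hY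
    rw [ht', ← hk]
    exact (div_mul_cancel₀ _ hk0.ne').ge
  have h1 : critical m ≤ (t : ℝ≥0∞) := iInf_le_of_le ⟨t, ht0, hperc⟩ le_rfl
  rw [hk']
  refine (mul_le_mul' h1 le_rfl).trans ?_
  rw [← ENNReal.ofReal_coe_nnreal, ← ENNReal.ofReal_mul t.coe_nonneg, ht',
    div_mul_cancel₀ _ hk0.ne']

/-! ### The law with density `2 / ℓ ^ 3` on `[1, ∞)` -/

theorem pareto_tail {r : ℝ} (hr : 1 ≤ r) :
    paretoMeasure 1 2 (Ici r) = ENNReal.ofReal (r ^ 2)⁻¹ := by
  have hr0 : 0 < r := by linarith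
  unfold paretoMeasure
  rw [withDensity_apply _ measurableSet_Ici]
  have h1 : ∫⁻ y in Ici r, paretoPDF 1 2 y = ∫⁻ y in Ici r, ENNReal.ofReal (2 * y ^ (-3 : ℝ)) := by
    refine setLIntegral_congr_fun measurableSet_Ici fun y hy => ?_
    have hy1 : 1 ≤ y := le_trans hr hy
    rw [paretoPDF_of_le hy1]
    norm_num
  rw [h1, setLIntegral_congr (Ioi_ae_eq_Ici (a := r)).symm]
  have hint : IntegrableOn (fun y : ℝ => 2 * y ^ (-3 : ℝ)) (Ioi r) :=
    ((integrableOn_Ioi_rpow_iff hr0).mpr (by norm_num)).const_mul 2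
  rw [← ofReal_integral_eq_lintegral_ofReal hint]
  · congr 1
    rw [integral_const_mul, integral_Ioi_rpow_of_lt (by norm_num) hr0]
    norm_num
    ring
  · refine (ae_restrict_iff' measurableSet_Ioi).mpr (Filter.Eventually.of_forall fun y hy => ?_)
    have : (0 : ℝ) < y := lt_trans hr0 hy
    positivity

theorem pareto_sup : tailSup (paretoMeasure 1 2) ≤ 1 := by
  have := isProbabilityMeasure_paretoMeasure (t := 1) (r := 2) one_pos two_pos
  refine iSup_le fun r => ?_
  obtain ⟨r, hr⟩ := r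
  simp only
  by_cases h : 1 ≤ r
  · rw [pareto_tail h, ← ENNReal.ofReal_mul (by positivity), mul_inv_cancel₀ (by positivity)]
    simp
  · push Not at h
    have h1 : ENNReal.ofReal (r ^ 2) ≤ 1 := by
      rw [ENNReal.ofReal_le_one]
      nlinarith
    calc ENNReal.ofReal (r ^ 2) * paretoMeasure 1 2 (Ici r) ≤ 1 * 1 := mul_le_mul' h1 prob_le_one
      _ = 1 := one_mul 1

theorem pareto_neg : paretoMeasure 1 2 (Iic 0) = 0 := by
  unfold paretoMeasure
  rw [withDensity_apply _ measurableSet_Iic]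
  rw [setLIntegral_congr_fun (g := fun _ => 0) measurableSet_Iic]
  · simp
  · intro y hy
    exact paretoPDF_of_lt (lt_of_le_of_lt hy one_pos)

theorem pareto_second : ∫⁻ ℓ, ENNReal.ofReal (ℓ ^ 2) ∂(paretoMeasure 1 2) = ∞ := by
  unfold paretoMeasure
  have hmeas : Measurable (paretoPDF 1 2) := (measurable_paretoPDFReal 1 2).ennreal_ofReal
  rw [lintegral_withDensity_eq_lintegral_mul _ hmeas (by fun_prop)]
  by_contra hcon
  have h1 : ∫⁻ y in Ioi (1 : ℝ), ENNReal.ofReal (y⁻¹) ≤
      ∫⁻ y, (paretoPDF 1 2 * fun ℓ => ENNReal.ofReal (ℓ ^ 2)) y := by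
    refine le_trans (setLIntegral_mono' measurableSet_Ioi fun y hy => ?_)
      (setLIntegral_le_lintegral (Ioi 1) _)
    have hy1 : (1 : ℝ) < y := hy
    have hy0 : (0 : ℝ) < y := by linarith
    simp only [Pi.mul_apply]
    rw [paretoPDF_of_le hy1.le, ← ENNReal.ofReal_mul (by positivity)]
    refine ENNReal.ofReal_le_ofReal ?_
    have h2 : y ^ (-(2 + 1) : ℝ) = (y ^ 3)⁻¹ := by
      rw [Real.rpow_neg hy0.le]
      norm_num
    rw [h2]
    have h3 : (2 : ℝ) * 1 ^ (2 : ℝ) * (y ^ 3)⁻¹ * y ^ 2 = 2 * y⁻¹ := by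
      rw [Real.one_rpow]
      field_simp
    rw [h3]
    have : 0 < y⁻¹ := inv_pos.mpr hy0
    linarith
  have h2 : ∫⁻ y in Ioi (1 : ℝ), ENNReal.ofReal (y⁻¹) < ∞ :=
    lt_of_le_of_lt h1 (lt_top_iff_ne_top.mpr hcon)
  refine not_integrableOn_Ioi_inv (a := (1 : ℝ)) ⟨?_, ?_⟩
  · exact (measurable_inv).aestronglyMeasurable
  · rw [hasFiniteIntegral_iff_ofReal]
    · exact h2
    · refine (ae_restrict_iff' measurableSet_Ioi).mpr (Filter.Eventually.of_forall fun y hy => ?_)
      have : (0 : ℝ) < y := lt_trans one_pos hy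
      exact (inv_pos.mpr this).le

/-- **Q2.** There are absolute constants `c, C > 0` such that for every law `m` of the length
`L > 0` the critical intensity of the Poisson segments satisfies `c / K ≤ λ_c ≤ C / K` with
`K = sup_{r > 0} r ^ 2 P (L ≥ r)`. Hence `λ_c < ∞` always, and `λ_c = 0` if and only if `K = ∞`.
For the law with density `2 / ℓ ^ 3` on `[1, ∞)` one has `E L ^ 2 = ∞` and `λ_c > 0`. -/
theorem result :
    (∃ c C : ℝ, 0 < c ∧ 0 < C ∧ ∀ (m : Measure ℝ) [IsProbabilityMeasure m], m (Iic 0) = 0 →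
      ENNReal.ofReal c / tailSup m ≤ critical m ∧ critical m ≤ ENNReal.ofReal C / tailSup m) ∧
    (∀ (m : Measure ℝ) [IsProbabilityMeasure m], m (Iic 0) = 0 →
      critical m < ∞ ∧ (critical m = 0 ↔ tailSup m = ∞)) ∧
    (IsProbabilityMeasure (paretoMeasure 1 2) ∧ paretoMeasure 1 2 (Iic 0) = 0 ∧
      ∫⁻ ℓ, ENNReal.ofReal (ℓ ^ 2) ∂(paretoMeasure 1 2) = ∞ ∧
      0 < critical (paretoMeasure 1 2)) := by
  obtain ⟨c, hc, hlow⟩ := lower
  have hc0 : ENNReal.ofReal c ≠ 0 := by
    rw [Ne, ENNReal.ofReal_eq_zero, not_le]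
    exact hc
  have hiff : ∀ (m : Measure ℝ) [IsProbabilityMeasure m], m (Iic 0) = 0 →
      critical m < ∞ ∧ (critical m = 0 ↔ tailSup m = ∞) := by
    intro m _ hm
    refine ⟨lt_of_le_of_lt (upper m)
      (ENNReal.div_lt_top ENNReal.ofReal_ne_top (tailSup_ne_zero m hm)), ?_, ?_⟩
    · intro h
      have h1 := hlow m hm
      rw [h, nonpos_iff_eq_zero, ENNReal.div_eq_zero_iff] at h1
      exact h1.resolve_left hc0
    · intro h
      have h1 := upper m
      rw [h, ENNReal.div_top] at h1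
      exact le_antisymm h1 zero_le
  have hpr := isProbabilityMeasure_paretoMeasure (t := 1) (r := 2) one_pos two_pos
  refine ⟨⟨c, 640000, hc, by norm_num, fun m _ hm => ⟨hlow m hm, upper m⟩⟩, hiff, hpr,
    pareto_neg, pareto_second, ?_⟩
  refine pos_iff_ne_zero.mpr fun h => ?_
  have h1 := ((hiff _ pareto_neg).2).mp h
  have h2 := pareto_sup
  rw [h1] at h2
  exact absurd h2 (by simp)

end Pool.Agent.Results.MP_04d7a1_pr.ContinuumSegments
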